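import Pool.Agent.MP_3d3bcd_pr.H93.Main

set_option autoImplicit false

open Filter Topology ProbabilityTheory Pool.Agent.MP_3d3bcd_pr.H93

namespace Pool.Agent.Results.MP_3d3bcd_pr.CLT

/-- Central limit theorem for the number of components meeting the axis exactly twice. -/
theorem result (x : ℝ) :
    Tendsto (fun n : ℕ => (((systems n).filter fun p =>
        ((common p : ℝ) - mean n) / √(var n) ≤ x).card : ℝ) / (systems n).card) atTop
      (𝓝 (cdf (gaussianReal 0 1) x)) :=
  main x

end Pool.Agent.Results.MP_3d3bcd_pr.CLT
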